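import Pool.Agent.TH794.FG.Spec3
import Pool.Agent.TH794.QD.Prof
import Pool.Agent.TH794.QE.FinC
import Pool.Agent.R988.Base

/-! The free resolvent at the origin is the boundary value. -/

set_option autoImplicit false
set_option linter.unusedVariables false
set_option linter.unusedSectionVars false

open scoped BigOperators Topology
open MeasureTheory Filter Set

namespace Pool.Agent.H189.GR

open Pool.Agent.W788.BK
open Pool.Agent.H4R2.LO (Zd)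
open Pool.Agent.TH794.LL2
open Pool.Agent.TH794.FG
open Pool.Agent.TH794.QD
open Pool.Agent.TH794.QE

variable {d : ℕ}

theorem LG_exists (d : ℕ) (E t : ℝ) (ht : 0 < t) :
    ∃ ur ui : Zd d → ℝ, LG d 0 (fun _ => 0) 0 E t ur ui := by
  obtain ⟨u, hu⟩ := rs_exists (fun _ : Zd d => (0 : ℝ)) 0 (fun _ => by simp) 0 (-E) t ht
  have h := rs_LS hu (fun _ => 0) 0 0 (fun x => by simp)
  have hs : ∀ x : Zd d, (Pi.single (M := fun _ => ℝ) 0 1 : Zd d → ℝ) (x - 0) =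
      if x = 0 then 1 else 0 := by
    intro x
    rw [sub_zero]
    by_cases hx : x = 0
    · rw [if_pos hx, hx, Pi.single_eq_same]
    · rw [if_neg hx, Pi.single_eq_of_ne hx]
  refine ⟨_, _, ⟨h.sr, h.si, fun x => ?_, fun x => ?_⟩⟩
  · have := h.er x
    rw [hs] at this
    simp only [zero_sub, neg_neg] at this
    exact this
  · have := h.ei x
    simp only [zero_sub, neg_neg, zero_add] at this
    exact this

theorem LG_val (hd : 3 ≤ d) (E t : ℝ) (ht : 0 < t) (ur ui : Zd d → ℝ)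
    (h : LG d 0 (fun _ => 0) 0 E t ur ui) :
    (ur 0 : ℂ) + Complex.I * (ui 0 : ℂ) = GF (F0 d) ((E : ℂ) + ((t : ℝ) : ℂ) * Complex.I) := by
  obtain ⟨v, hv⟩ : ∃ v, v = (ur 0 : ℂ) + Complex.I * (ui 0 : ℂ) := ⟨_, rfl⟩
  obtain ⟨z, hz⟩ : ∃ z, z = (E : ℂ) + ((t : ℝ) : ℂ) * Complex.I := ⟨_, rfl⟩
  rw [← hv, ← hz]
  obtain ⟨tm, htm⟩ : ∃ tm, tm = min t 1 := ⟨_, rfl⟩
  have htm0 : 0 < tm := by rw [htm]; exact lt_min ht one_pos
  have htm1 : tm ≤ 1 := by rw [htm]; exact min_le_right _ _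
  have hzi : tm ≤ z.im := by
    have : z.im = t := by rw [hz]; simp
    rw [this, htm]
    exact min_le_left _ _
  have key : ∀ n : ℕ, ‖v - GF (F0 d) z‖ ≤ 2 * d * t⁻¹ * t⁻¹ * (1 / ((n : ℝ) + 1)) +
      28 * d / tm ^ 2 * (1 / ((n : ℝ) + 1)) := by
    intro n
    obtain ⟨L, hL⟩ : ∃ L : ℕ, L = (n + 4) ^ 2 := ⟨_, rfl⟩
    have hLne : NeZero L := ⟨by rw [hL]; positivity⟩
    have hn0 : (0 : ℝ) ≤ n := Nat.cast_nonneg n
    have hLr : (L : ℝ) = ((n : ℝ) + 4) ^ 2 := by rw [hL]; push_cast; ring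
    have hL1 : 4 * ((n : ℝ) + 1) + 4 < L := by
      rw [hLr]
      nlinarith
    have a1 := freeC2 (L := L) ((n : ℝ) + 1) t ht (by positivity) hL1 E ur ui h
    rw [← hv, ← hz] at a1
    have a2 := fin0 (L := L) Pool.Agent.W918.BK.Osc.osc d hd tm htm0 htm1 z hzi
    have e1 : v - GF (F0 d) z = (v - gL d L z) + (gL d L z - GF (F0 d) z) := by ring
    rw [e1]
    refine (norm_add_le _ _).trans (add_le_add (a1.trans (le_of_eq ?_)) (a2.trans ?_))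
    · ring
    · have h1 : 28 * (d : ℝ) / L / tm ^ 2 = 28 * d / tm ^ 2 * (1 / L) := by ring
      rw [h1]
      have h2 : 1 / (L : ℝ) ≤ 1 / ((n : ℝ) + 1) := by
        refine one_div_le_one_div_of_le (by positivity) ?_
        linarith
      gcongr
  have l1 : Tendsto (fun n : ℕ => 1 / ((n : ℝ) + 1)) atTop (𝓝 0) :=
    tendsto_one_div_add_atTop_nhds_zero_nat
  have l3 := (l1.const_mul (2 * d * t⁻¹ * t⁻¹)).add (l1.const_mul (28 * d / tm ^ 2))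
  simp only [mul_zero, add_zero] at l3
  have h0 := ge_of_tendsto' l3 key
  exact sub_eq_zero.1 (norm_le_zero_iff.1 h0)

theorem bvG (hd : 3 ≤ d) (E0 : ℝ) : BV d E0 (GF (F0 d) (E0 : ℂ)) := by
  intro E t ht
  obtain ⟨ur, ui, hLG⟩ := LG_exists d E t ht
  refine ⟨ur, ui, hLG, ?_⟩
  obtain ⟨v, hv⟩ : ∃ v, v = (ur 0 : ℂ) + Complex.I * (ui 0 : ℂ) := ⟨_, rfl⟩
  obtain ⟨z, hz⟩ : ∃ z, z = (E : ℂ) + ((t : ℝ) : ℂ) * Complex.I := ⟨_, rfl⟩
  rw [← hv, ← hz]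
  have key : ∀ ε : ℝ, 0 < ε → ‖v - GF (F0 d) ((E0 : ℂ) + (ε : ℂ) * Complex.I)‖ ≤
      2 * 10 ^ d * K5 * ‖z - ((E0 : ℂ) + ((ε : ℝ) : ℂ) * Complex.I)‖ ^ (1 / 4 : ℝ) := by
    intro ε hε
    obtain ⟨ur', ui', hLG'⟩ := LG_exists d E0 ε hε
    have h1 := inf_holder Pool.Agent.W918.BK.Osc.osc hd E E0 t ε ht hε ur ui ur' ui' hLG hLG'
    rw [LG_val hd E0 ε hε ur' ui' hLG', ← hv, ← hz] at h1
    exact h1
  have l1 : Tendsto (fun ε : ℝ => ‖v - GF (F0 d) ((E0 : ℂ) + (ε : ℂ) * Complex.I)‖) (𝓝[>] 0)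
      (𝓝 ‖v - GF (F0 d) (E0 : ℂ)‖) := by
    have h1 := lim3 _ _ (hol0 Pool.Agent.W918.BK.Osc.osc d hd) E0
    exact (tendsto_const_nhds.sub h1).norm
  have l2 : Tendsto (fun ε : ℝ => 2 * 10 ^ d * K5 *
      ‖z - ((E0 : ℂ) + ((ε : ℝ) : ℂ) * Complex.I)‖ ^ (1 / 4 : ℝ)) (𝓝[>] 0)
      (𝓝 (2 * 10 ^ d * K5 * ‖z - (E0 : ℂ)‖ ^ (1 / 4 : ℝ))) := by
    have hc : Continuous fun ε : ℝ => 2 * 10 ^ d * K5 *
      ‖z - ((E0 : ℂ) + ((ε : ℝ) : ℂ) * Complex.I)‖ ^ (1 / 4 : ℝ) := by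
      refine continuous_const.mul (Continuous.rpow_const (by fun_prop) fun _ => ?_)
      right
      norm_num
    have h1 := (hc.tendsto 0).mono_left (nhdsWithin_le_nhds (s := Set.Ioi 0))
    simp only [Complex.ofReal_zero, zero_mul, add_zero] at h1
    exact h1
  refine le_of_tendsto_of_tendsto l1 l2 ?_
  filter_upwards [self_mem_nhdsWithin] with ε hε
  exact key ε hε

end Pool.Agent.H189.GR
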