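import Mathlib

set_option autoImplicit false

namespace Pool.Agent.H189.GR.LIP

open Set

theorem lip (y Γ Γ' : ℝ) (hΓ : 0 < Γ) (h : Γ ≤ Γ') :
    |Real.arctan (y / Γ) - Real.arctan (y / Γ')| ≤ (Γ' - Γ) / Γ := by
  have hd : ∀ r ∈ Ici Γ, HasDerivWithinAt (fun r : ℝ => Real.arctan (y / r))
      (-y / (r ^ 2 + y ^ 2)) (Ici Γ) r := by
    intro r hr
    have hr0 : 0 < r := lt_of_lt_of_le hΓ hr
    have h1 : HasDerivAt (fun r : ℝ => y / r) (y * -(r ^ 2)⁻¹) r := by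
      have := (hasDerivAt_inv hr0.ne').const_mul y
      simpa only [div_eq_mul_inv] using this
    have h2 := h1.arctan
    have e : 1 / (1 + (y / r) ^ 2) * (y * -(r ^ 2)⁻¹) = -y / (r ^ 2 + y ^ 2) := by
      have h3 : r ^ 2 + y ^ 2 ≠ 0 := by positivity
      have h4 : 1 + (y / r) ^ 2 ≠ 0 := by positivity
      field_simp
    rw [e] at h2
    exact h2.hasDerivWithinAt
  have hb : ∀ r ∈ Ici Γ, ‖-y / (r ^ 2 + y ^ 2)‖ ≤ 1 / Γ := by
    intro r hr
    have hr1 : Γ ≤ r := hr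
    have hr0 : 0 < r := lt_of_lt_of_le hΓ hr1
    have h3 : 0 < r ^ 2 + y ^ 2 := by positivity
    rw [Real.norm_eq_abs, abs_div, abs_neg, abs_of_pos h3, div_le_div_iff₀ h3 hΓ, one_mul]
    have h4 : |y| * Γ ≤ |y| * r := mul_le_mul_of_nonneg_left hr1 (abs_nonneg _)
    have h5 : |y| ^ 2 = y ^ 2 := sq_abs y
    nlinarith [sq_nonneg (|y| - r), sq_nonneg r, sq_nonneg y]
  have hm := Convex.norm_image_sub_le_of_norm_hasDerivWithin_le hd hb (convex_Ici Γ)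
    (show Γ' ∈ Ici Γ from h) (show Γ ∈ Ici Γ from le_refl Γ)
  rw [Real.norm_eq_abs, Real.norm_eq_abs, abs_sub_comm Γ Γ',
    abs_of_nonneg (sub_nonneg.2 h)] at hm
  calc _ ≤ _ := hm
    _ = (Γ' - Γ) / Γ := by ring

theorem lint (x0 Γ α β : ℝ) (hΓ : 0 < Γ) :
    ∫ e in α..β, Γ / ((e - x0) ^ 2 + Γ ^ 2) = Real.arctan ((β - x0) / Γ) - Real.arctan ((α - x0) / Γ) := by
  have hd : ∀ e : ℝ, HasDerivAt (fun e : ℝ => Real.arctan ((e - x0) / Γ))
      (Γ / ((e - x0) ^ 2 + Γ ^ 2)) e := by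
    intro e
    have h1 : HasDerivAt (fun e : ℝ => (e - x0) / Γ) (1 / Γ) e :=
      ((hasDerivAt_id e).sub_const x0).div_const Γ
    have h2 := h1.arctan
    have h3 : 1 / (1 + ((e - x0) / Γ) ^ 2) * (1 / Γ) = Γ / ((e - x0) ^ 2 + Γ ^ 2) := by
      have h4 : (e - x0) ^ 2 + Γ ^ 2 ≠ 0 := by positivity
      have h5 : 1 + ((e - x0) / Γ) ^ 2 ≠ 0 := by positivity
      field_simp
      ring
    rw [h3] at h2
    exact h2
  have hc : Continuous fun e : ℝ => Γ / ((e - x0) ^ 2 + Γ ^ 2) := by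
    refine continuous_const.div (by fun_prop) fun e => ?_
    positivity
  exact intervalIntegral.integral_eq_sub_of_hasDerivAt (fun e _ => hd e)
    (hc.intervalIntegrable _ _)

end Pool.Agent.H189.GR.LIP
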