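import Mathlib

/-! Comparison of a measure with the Lorentzian: from a window to the whole line. -/

set_option autoImplicit false

namespace Pool.Agent.H189.GR.LOR

theorem arctan_le {z : ℝ} (hz : 0 < z) : Real.arctan z ≤ z := by
  have h0 : 0 < Real.arctan z := by
    rw [← Real.arctan_zero]
    exact Real.arctan_strictMono hz
  have h1 := Real.lt_tan h0 (Real.arctan_lt_pi_div_two z)
  rw [Real.tan_arctan] at h1
  exact h1.le

theorem tail {y Γ R : ℝ} (hΓ : 0 < Γ) (hR : 0 < R) (hy : R / 2 ≤ y) :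
    Real.pi / 2 - Real.arctan (y / Γ) ≤ 2 * Γ / R := by
  have hy0 : 0 < y := by linarith [half_pos hR]
  have h1 : 0 < y / Γ := by positivity
  rw [← Real.arctan_inv_of_pos h1]
  refine (arctan_le (inv_pos.2 h1)).trans ?_
  rw [inv_div, div_le_div_iff₀ hy0 hR]
  nlinarith

theorem lor (m : MeasureTheory.Measure ℝ) [MeasureTheory.IsFiniteMeasure m] (hm1 : m.real Set.univ ≤ 1) (x0 e0 Γ R ε : ℝ) (hΓ : 0 < Γ) (hR : 0 < R)
    (hx : |x0 - e0| ≤ R / 2) (hε : 0 ≤ ε)
    (h : ∀ α β : ℝ, e0 - R ≤ α → α ≤ β → β ≤ e0 + R →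
      |Real.pi * m.real (Set.Icc α β) - (Real.arctan ((β - x0) / Γ) - Real.arctan ((α - x0) / Γ))| ≤ ε) :
    ∀ α β : ℝ, α ≤ β →
      |m.real (Set.Icc α β) - 1 / Real.pi * (Real.arctan ((β - x0) / Γ) - Real.arctan ((α - x0) / Γ))| ≤ ε + 4 * Γ / R := by
  intro α β hαβ
  obtain ⟨hx1, hx2⟩ := abs_le.1 hx
  have hpi := Real.pi_gt_three
  have hmono : ∀ a b : ℝ, a ≤ b → Real.arctan ((a - x0) / Γ) ≤ Real.arctan ((b - x0) / Γ) := by
    intro a b hab
    apply Real.arctan_strictMono.monotone
    gcongr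
  have hup : ∀ a : ℝ, Real.arctan ((a - x0) / Γ) < Real.pi / 2 := fun a =>
    Real.arctan_lt_pi_div_two _
  have hlo : ∀ a : ℝ, -(Real.pi / 2) < Real.arctan ((a - x0) / Γ) := fun a =>
    Real.neg_pi_div_two_lt_arctan _
  have hT : 2 * (2 * Γ / R) = 4 * Γ / R := by ring
  have hT0 : 0 < 4 * Γ / R := by positivity
  have ht1 : Real.pi / 2 - Real.arctan ((e0 + R - x0) / Γ) ≤ 2 * Γ / R :=
    tail hΓ hR (by linarith)
  have ht2 : Real.pi / 2 + Real.arctan ((e0 - R - x0) / Γ) ≤ 2 * Γ / R := by
    have h1 := tail (y := x0 - (e0 - R)) hΓ hR (by linarith)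
    have h2 : (x0 - (e0 - R)) / Γ = -((e0 - R - x0) / Γ) := by ring
    rw [h2, Real.arctan_neg] at h1
    linarith
  have hJ := (abs_le.1 (h (e0 - R) (e0 + R) le_rfl (by linarith) le_rfl)).1
  have hJc : Real.pi * m.real (Set.Icc (e0 - R) (e0 + R))ᶜ ≤ 4 * Γ / R + ε := by
    have h1 := MeasureTheory.measureReal_add_measureReal_compl (μ := m)
      (measurableSet_Icc (a := e0 - R) (b := e0 + R))
    nlinarith
  have hm0 : 0 ≤ m.real (Set.Icc α β) := MeasureTheory.measureReal_nonneg
  have main : |Real.pi * m.real (Set.Icc α β) -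
      (Real.arctan ((β - x0) / Γ) - Real.arctan ((α - x0) / Γ))| ≤ 2 * ε + 4 * Γ / R := by
    have hGpos := hmono α β hαβ
    have hpm : 0 ≤ Real.pi * m.real (Set.Icc α β) := by positivity
    by_cases c1 : β < e0 - R
    · have h1 : m.real (Set.Icc α β) ≤ m.real (Set.Icc (e0 - R) (e0 + R))ᶜ := by
        refine MeasureTheory.measureReal_mono (fun t ht ht2 => ?_) (MeasureTheory.measure_ne_top _ _)
        have := ht.2
        have := ht2.1
        linarith
      have h2 : Real.pi * m.real (Set.Icc α β) ≤ Real.pi * m.real (Set.Icc (e0 - R) (e0 + R))ᶜ := by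
        gcongr
      have h3 := hmono β (e0 - R) c1.le
      have h4 := hlo α
      rw [abs_le]
      constructor <;> linarith
    by_cases c2 : e0 + R < α
    · have h1 : m.real (Set.Icc α β) ≤ m.real (Set.Icc (e0 - R) (e0 + R))ᶜ := by
        refine MeasureTheory.measureReal_mono (fun t ht ht2 => ?_) (MeasureTheory.measure_ne_top _ _)
        have := ht.1
        have := ht2.2
        linarith
      have h2 : Real.pi * m.real (Set.Icc α β) ≤ Real.pi * m.real (Set.Icc (e0 - R) (e0 + R))ᶜ := by
        gcongr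
      have h3 := hmono (e0 + R) α c2.le
      have h4 := hup β
      rw [abs_le]
      constructor <;> linarith
    push Not at c1 c2
    have hab : max α (e0 - R) ≤ min β (e0 + R) :=
      max_le (le_min hαβ c2) (le_min c1 (by linarith))
    obtain ⟨h1, h2⟩ := abs_le.1 (h (max α (e0 - R)) (min β (e0 + R)) (le_max_right _ _) hab
      (min_le_right _ _))
    have h3 : m.real (Set.Icc (max α (e0 - R)) (min β (e0 + R))) ≤ m.real (Set.Icc α β) := by
      exact MeasureTheory.measureReal_mono (Set.Icc_subset_Icc (le_max_left _ _) (min_le_left _ _))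
        (MeasureTheory.measure_ne_top _ _)
    have h4 : m.real (Set.Icc α β) ≤ m.real (Set.Icc (max α (e0 - R)) (min β (e0 + R))) +
        m.real (Set.Icc (e0 - R) (e0 + R))ᶜ := by
      refine le_trans (MeasureTheory.measureReal_mono ?_ (MeasureTheory.measure_ne_top _ _))
        (MeasureTheory.measureReal_union_le _ _)
      intro t ht
      by_cases c : t ∈ Set.Icc (e0 - R) (e0 + R)
      · exact Or.inl ⟨max_le ht.1 c.1, le_min ht.2 c.2⟩
      · exact Or.inr c
    have h5 : Real.pi * m.real (Set.Icc (max α (e0 - R)) (min β (e0 + R))) ≤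
        Real.pi * m.real (Set.Icc α β) := by gcongr
    have h6 : Real.pi * m.real (Set.Icc α β) ≤
        Real.pi * m.real (Set.Icc (max α (e0 - R)) (min β (e0 + R))) +
        Real.pi * m.real (Set.Icc (e0 - R) (e0 + R))ᶜ := by
      rw [← mul_add]
      gcongr
    have h7 : Real.arctan ((β - x0) / Γ) - Real.arctan ((min β (e0 + R) - x0) / Γ) ≤
        2 * Γ / R := by
      rcases le_total β (e0 + R) with c | c
      · rw [min_eq_left c, sub_self]
        positivity
      · rw [min_eq_right c]
        have := hup β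
        linarith
    have h8 : Real.arctan ((max α (e0 - R) - x0) / Γ) - Real.arctan ((α - x0) / Γ) ≤
        2 * Γ / R := by
      rcases le_total α (e0 - R) with c | c
      · rw [max_eq_right c]
        have := hlo α
        linarith
      · rw [max_eq_left c, sub_self]
        positivity
    have h9 := hmono _ _ (min_le_left β (e0 + R))
    have h10 := hmono _ _ (le_max_left α (e0 - R))
    rw [abs_le]
    constructor <;> linarith
  have e1 : m.real (Set.Icc α β) - 1 / Real.pi *
      (Real.arctan ((β - x0) / Γ) - Real.arctan ((α - x0) / Γ)) =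
      (Real.pi * m.real (Set.Icc α β) -
      (Real.arctan ((β - x0) / Γ) - Real.arctan ((α - x0) / Γ))) / Real.pi := by
    field_simp
  rw [e1, abs_div, abs_of_pos Real.pi_pos, div_le_iff₀ Real.pi_pos]
  refine main.trans ?_
  nlinarith

end Pool.Agent.H189.GR.LOR
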