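import Pool.Agent.H189.GR.Bv
import Pool.Agent.H189.GR.Lor
import Pool.Agent.H189.GR.Lip
import Pool.Agent.H189.W.Ldos
import Pool.Agent.R988.Up
import Pool.Agent.H189.ME2.Bulk

/-! The golden rule: the spectral measures of wave packets are Lorentzian. -/

set_option autoImplicit false
set_option linter.unusedVariables false
set_option linter.unusedSectionVars false

open scoped BigOperators Topology
open MeasureTheory Filter Set

namespace Pool.Agent.H189.GR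

open Pool.Agent.W788.BK
open Pool.Agent.H4R2.LO (Zd)
open Pool.Agent.W788.LD.Spec (S)
open Pool.Agent.TH794.LL2
open Pool.Agent.TH794.FG
open Pool.Agent.TH794.QD (GF F0 F1)
open Pool.Agent.TH794.QE (RegE)
open Pool.Agent.R988 Pool.Agent.R988.Tor

/-- from the Poisson integrals to the intervals -/
theorem golden_det (m : Measure ℝ) [IsFiniteMeasure m] (hm1 : m.real univ ≤ 1)
    (x0 e0 Γ t R er : ℝ) (K0 : ℕ) (hK : 1 ≤ K0) (hΓ : 0 < Γ) (ht : 0 < t) (hR : 0 < R)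
    (her : 0 ≤ er) (hx : |x0 - e0| ≤ R / 2) (hKt : 2 * K0 * t ≤ R)
    (h : ∀ e, |e - e0| ≤ 2 * R →
      |Po m e t - (Γ + t) / ((e - x0) ^ 2 + (Γ + t) ^ 2)| ≤ er) :
    ∀ α β : ℝ, α ≤ β → |m.real (Icc α β) - 1 / Real.pi *
        (Real.arctan ((β - x0) / Γ) - Real.arctan ((α - x0) / Γ))| ≤
      (er * (2 * R) + 2 * (16 * (1 + Real.log (K0 + 1)) * (t * (Γ⁻¹ + er)) + 1 / (2 * K0)) +
        2 * (t / Γ)) + 4 * Γ / R := by
  have hK1 : (1 : ℝ) ≤ K0 := by exact_mod_cast hK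
  have hlog : 0 ≤ Real.log (K0 + 1) := Real.log_nonneg (by linarith)
  have hΓi : 0 < Γ⁻¹ := inv_pos.2 hΓ
  refine LOR.lor m hm1 x0 e0 Γ R _ hΓ hR hx (by positivity) fun α β hα hαβ hβ => ?_
  have hΓt : 0 < Γ + t := by linarith
  have hρ : Continuous fun e : ℝ => (Γ + t) / ((e - x0) ^ 2 + (Γ + t) ^ 2) := by
    refine Continuous.div (by fun_prop) (by fun_prop) fun e => ?_
    positivity
  have hρC : ∀ e : ℝ, (Γ + t) / ((e - x0) ^ 2 + (Γ + t) ^ 2) ≤ Γ⁻¹ := by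
    intro e
    rw [div_le_iff₀ (by positivity), inv_mul_eq_div, le_div_iff₀ hΓ]
    nlinarith [sq_nonneg (e - x0)]
  have h1 := Pool.Agent.H189.W.ldos_det m hm1 t er Γ⁻¹ α β R
    (fun e => (Γ + t) / ((e - x0) ^ 2 + (Γ + t) ^ 2)) hρ ht her hαβ hρC K0 hK hKt
    (fun e he1 he2 => h e (by
      rw [abs_le]
      constructor <;> linarith))
  rw [LIP.lint x0 (Γ + t) α β hΓt] at h1
  have l1 := LIP.lip (β - x0) Γ (Γ + t) hΓ (by linarith)
  have l2 := LIP.lip (α - x0) Γ (Γ + t) hΓ (by linarith)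
  rw [add_sub_cancel_left] at l1 l2
  have h2 : er * (β - α) ≤ er * (2 * R) := by
    refine mul_le_mul_of_nonneg_left (by linarith) her
  have b1 := abs_le.1 h1
  have b2 := abs_le.1 l1
  have b3 := abs_le.1 l2
  rw [abs_le]
  constructor <;> linarith [b1.1, b1.2, b2.1, b2.2, b3.1, b3.2]

theorem gr (d : ℕ) (hd : 3 ≤ d) (κ : ℝ) (hκ : 0 < κ) (hκ1 : κ ≤ 1) (b v : ℝ) (hb : 0 < b)
    (hv : 0 < v) : ∃ c0 : ℝ, 0 < c0 ∧ c0 ≤ 1 ∧ ∀ c : ℝ, 0 < c → c ≤ c0 →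
    ∀ (ν : Measure ℝ), IsProbabilityMeasure ν → (∀ᵐ s ∂ν, |s| ≤ b) → ∫ s, s ∂ν = 0 →
    ∀ Vv : ℝ, ∫ s, s ^ 2 ∂ν = Vv → v ≤ Vv →
    ∀ E0 : ℝ, |E0| ≤ 2 * d - κ → ∀ f : Zd d → ℂ, (∀ x, c ^ (-5 : ℝ) < ‖x‖ → f x = 0) →
    ∑' x, ‖f x‖ ^ 2 = 1 →
    ∑' x, ‖S f x - (E0 : ℂ) * f x‖ ^ 2 ≤ (c ^ (41 / 20 : ℝ)) ^ 2 →
    ∃ G : Set (Zd d → ℝ), MeasurableSet G ∧
      1 - Real.exp (-c ^ (-(1 / 100) : ℝ)) ≤ (Measure.infinitePi fun _ : Zd d => ν).real G ∧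
      ∀ ξ ∈ G, ∀ a : Zd d, ‖a‖ ≤ Real.exp (c ^ (-(1 / 100) : ℝ)) →
      ∀ m : Measure ℝ, IsFiniteMeasure m →
        Res2 d (fun x => 2 * d - c * ξ x) (fun x => f (x - a)) m → ∀ α β : ℝ, α ≤ β →
        |m.real (Icc α β) - 1 / Real.pi *
          (Real.arctan ((β - (2 * d - E0 + c ^ 2 * Vv * (GF (F0 d) (E0 : ℂ)).re)) /
            (c ^ 2 * Vv * (GF (F0 d) (E0 : ℂ)).im)) -
          Real.arctan ((α - (2 * d - E0 + c ^ 2 * Vv * (GF (F0 d) (E0 : ℂ)).re)) /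
            (c ^ 2 * Vv * (GF (F0 d) (E0 : ℂ)).im)))| ≤ c ^ (1 / 300 : ℝ) := by
  have hd3 : (3 : ℝ) ≤ d := by exact_mod_cast hd
  obtain ⟨γ0, γ1, hbase⟩ := base d (by omega)
  obtain ⟨h1, ⟨m1, hm1, h2⟩, -⟩ := hbase κ hκ hκ1
  obtain ⟨C, hC, hup⟩ := up d (by omega) κ hκ hκ1
  obtain ⟨y0, hy0⟩ := engine3 Pool.Agent.W193.BK.ES.es
    (Pool.Agent.W261.BK.third Pool.Agent.W540.BK.fac)
    (Pool.Agent.W240.BK.fluct (Pool.Agent.W240.BK.var Pool.Agent.W193.BK.ES.es))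
    Pool.Agent.W475.BK.inv Pool.Agent.W975.BK.sup
    (Pool.Agent.W465.BK.qb (Pool.Agent.W240.BK.two Pool.Agent.W918.BK.Osc.osc))
    Pool.Agent.W475.BK.low Pool.Agent.W790.BK.ADM.adm d hd b v (m1 / 2) hb hv (by positivity)
  obtain ⟨a0, ha0⟩ : ∃ a0, a0 = v * m1 := ⟨_, rfl⟩
  have ha00 : 0 < a0 := by rw [ha0]; positivity
  obtain ⟨A0, hA0⟩ : ∃ A0, A0 = 1 / a0 + 1 := ⟨_, rfl⟩
  have hA00 : 0 < A0 := by rw [hA0]; positivity
  obtain ⟨B0, hB0⟩ : ∃ B0, B0 = b ^ 2 * C := ⟨_, rfl⟩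
  have hB00 : 0 < B0 := by rw [hB0]; positivity
  obtain ⟨l1, hl1, hl11, hnum⟩ := ev_extract
    ((ev1 5 (1 / 375) (by norm_num)).and
    ((ev1 (480 * A0) (1 / 150) (by norm_num)).and
    ((ev1 5 (29 / 300) (by norm_num)).and
    ((ev1 (10 / a0) (8 / 75) (by norm_num)).and
    ((ev1 (40 * B0) (1 / 600) (by norm_num)).and
    ((ev1 8 (3 / 200) (by norm_num)).and
    ((ev1 (4 * B0) (1 / 200) (by norm_num)))))))))
  refine ⟨min l1 (Real.exp (-y0)), lt_min hl1 (Real.exp_pos _), (min_le_left _ _).trans hl11, ?_⟩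
  intro c hc hle ν hν hνb hν0 Vv hVv hvV E0 hE0 f hf1 hf2 hf3
  obtain ⟨n1, n2, n3, n4, n5, n6, n7⟩ := hnum c hc (hle.trans (min_le_left _ _))
  have hc1 : c ≤ 1 := (hle.trans (min_le_left _ _)).trans hl11
  have hpos : ∀ p : ℝ, 0 < c ^ p := fun p => Real.rpow_pos_of_pos hc p
  have hadd : ∀ p q : ℝ, c ^ p * c ^ q = c ^ (p + q) := fun p q => (Real.rpow_add hc p q).symm
  -- the logarithmic scale
  obtain ⟨y, hy⟩ : ∃ y, y = -Real.log c := ⟨_, rfl⟩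
  have hyy : y0 ≤ y := by
    have h3 := Real.log_le_log hc (hle.trans (min_le_right _ _))
    rw [Real.log_exp] at h3
    rw [hy]
    linarith
  have hex : ∀ p : ℝ, Real.exp (-p * y) = c ^ p := by
    intro p
    rw [Real.rpow_def_of_pos hc, hy]
    congr 1
    ring
  have hex1 : Real.exp (-1 * y) = c := by
    have := hex 1
    rwa [Real.rpow_one] at this
  have hex2 : Real.exp (y / 100) = c ^ (-(1 / 100) : ℝ) := by
    rw [← hex]
    congr 1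
    ring
  have hex3 : Real.exp (5 * y) = c ^ (-5 : ℝ) := by
    rw [← hex]
    congr 1
    ring
  have hex4 : Real.exp (1989 / 1000 * y) = c ^ (-(1989 / 1000) : ℝ) := by
    rw [← hex]
    congr 1
    ring
  have hex5 : Real.exp (-2 * y) = c ^ 2 := by
    have := hex 2
    rw [this]
    exact_mod_cast Real.rpow_natCast c 2
  have hex6 : Real.exp (-(211 / 100) * y) = c ^ (211 / 100 : ℝ) := hex _
  have hex7 : Real.exp (-(399 / 200) * y) = c ^ (399 / 200 : ℝ) := hex _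
  have hex8 : Real.exp (-(41 / 20) * y) = c ^ (41 / 20 : ℝ) := hex _
  -- the boundary value
  obtain ⟨γ, hγ⟩ : ∃ γ, γ = GF (F0 d) (E0 : ℂ) := ⟨_, rfl⟩
  have hreg : RegE d κ E0 := Or.inr ⟨hd, hE0.trans (by linarith)⟩
  have hγ0 : γ0 E0 = γ := by
    rw [hγ]
    exact tendsto_nhds_unique (h1 E0 hreg).1
      (Pool.Agent.TH794.QE.lim3 _ _ (Pool.Agent.TH794.QD.hol0 Pool.Agent.W918.BK.Osc.osc d hd) E0)
  have hγm : m1 ≤ γ.im := by
    have h3 := h2 E0 hreg hE0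
    have h4 := (h1 E0 hreg).2.2.2
    rw [hγ0] at h4
    linarith
  have hγC : ‖γ‖ ≤ C := by
    rw [← hγ0]
    exact hup _ _ hreg (h1 E0 hreg).1
  have hVb : Vv ≤ b ^ 2 := by
    rw [← hVv]
    have h5 : ∀ᵐ s ∂ν, ‖s ^ 2‖ ≤ b ^ 2 := by
      filter_upwards [hνb] with s hs
      rw [Real.norm_eq_abs, abs_of_nonneg (sq_nonneg _), ← sq_abs]
      gcongr
    have h7 := norm_integral_le_of_norm_le_const h5
    rw [probReal_univ, mul_one, Real.norm_eq_abs] at h7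
    exact (le_abs_self _).trans h7
  have hV0 : 0 < Vv := by linarith
  have hnn : ∀ z : ℂ, ‖z‖ ^ 2 = z.re ^ 2 + z.im ^ 2 := by
    intro z
    rw [← Complex.normSq_eq_norm_sq, Complex.normSq_apply]
    ring
  obtain ⟨G, hG, hP, hGl⟩ := hy0 y hyy ν hν hνb hν0 Vv hVv hvV E0 γ (by linarith)
    (by rw [hγ]; exact bvG hd E0) (fun x => (f x).re) (fun x => -(f x).im)
    (fun x hx => by
      rw [hex3] at hx
      rw [hf1 x hx, Complex.zero_re])
    (fun x hx => by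
      rw [hex3] at hx
      rw [hf1 x hx, Complex.zero_im, neg_zero])
    (by
      rw [← hf2]
      refine tsum_congr fun x => ?_
      rw [hnn]
      ring)
    (by
      rw [hex8]
      refine le_trans (le_of_eq ?_) hf3
      refine tsum_congr fun x => ?_
      rw [hnn]
      have e1 : (S f x - (E0 : ℂ) * f x).re = ∑ i, ((f (x + Pi.single i 1)).re +
          (f (x - Pi.single i 1)).re) - E0 * (f x).re := by
        unfold Pool.Agent.W788.LD.Spec.S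
        simp
      have e2 : (S f x - (E0 : ℂ) * f x).im = ∑ i, ((f (x + Pi.single i 1)).im +
          (f (x - Pi.single i 1)).im) - E0 * (f x).im := by
        unfold Pool.Agent.W788.LD.Spec.S
        simp
      have e3 : ∑ i, (-(f (x + Pi.single i 1)).im + -(f (x - Pi.single i 1)).im) =
          -∑ i, ((f (x + Pi.single i 1)).im + (f (x - Pi.single i 1)).im) := by
        rw [← Finset.sum_neg_distrib]
        exact Finset.sum_congr rfl fun i _ => by ring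
      rw [e1, e2, e3]
      ring)
  rw [hex2] at hP
  refine ⟨G, hG, hP, fun ξ hξ a ha m hm hres α β hαβ => ?_⟩
  have hL := hGl ξ hξ
  rw [hex1, hex2, hex4, hex5, hex6, hex7] at hL
  obtain ⟨t, ht⟩ : ∃ t, t = c ^ (211 / 100 : ℝ) := ⟨_, rfl⟩
  have ht0 : 0 < t := by rw [ht]; exact hpos _
  obtain ⟨Γ, hΓ⟩ : ∃ Γ, Γ = c ^ 2 * Vv * γ.im := ⟨_, rfl⟩
  obtain ⟨x0, hx0⟩ : ∃ x0, x0 = 2 * d - E0 + c ^ 2 * Vv * γ.re := ⟨_, rfl⟩
  rw [← hγ, ← hx0, ← hΓ]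
  have hc2 : c ^ 2 = c ^ (2 : ℝ) := by exact_mod_cast (Real.rpow_natCast c 2).symm
  have hΓl : c ^ 2 * a0 ≤ Γ := by
    rw [hΓ, ha0, ← mul_assoc]
    have : 0 ≤ c ^ 2 := sq_nonneg c
    gcongr
  have hΓ0 : 0 < Γ := lt_of_lt_of_le (by positivity) hΓl
  have hΓu : Γ ≤ c ^ 2 * B0 := by
    rw [hΓ, hB0, ← mul_assoc]
    have : γ.im ≤ C := (Complex.im_le_norm _).trans hγC
    have h0 : 0 ≤ γ.im := by linarith
    gcongr
  obtain ⟨R, hR⟩ : ∃ R, R = c ^ (399 / 200 : ℝ) / 2 := ⟨_, rfl⟩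
  have hR0 : 0 < R := by rw [hR]; have := hpos (399 / 200); positivity
  have hR2 : 2 * R = c ^ (399 / 200 : ℝ) := by rw [hR]; ring
  have hc2R : c ^ 2 = 2 * (c ^ (1 / 200 : ℝ) * R) := by
    rw [hR, hc2]
    have : c ^ (2 : ℝ) = c ^ (1 / 200 : ℝ) * c ^ (399 / 200 : ℝ) := by
      rw [hadd]
      norm_num
    rw [this]
    ring
  have hsupp : (Function.support fun x => f (x - a)).Finite := by
    have h3 := fin_supp (c ^ (-5 : ℝ)) (fun x : Zd d => ‖f x‖) (fun x hx => by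
      rw [hf1 x hx, norm_zero])
    have h4 : (Function.support f).Finite := by
      refine h3.subset fun x hx h0 => hx ?_
      exact norm_eq_zero.1 h0
    refine (h4.preimage (f := fun x : Zd d => x - a) (sub_left_injective.injOn)).subset
      fun x hx => hx
  have hmass : m.real univ ≤ 1 := by
    refine mass_spec3 (fun x => 2 * d - c * ξ x) (fun x => f (x - a)) m hres hsupp ?_
    have h3 : ∑' x : Zd d, ‖f (x - a)‖ ^ 2 = 1 := by
      rw [← hf2]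
      exact (Equiv.subRight a).tsum_eq (fun x => ‖f x‖ ^ 2)
    rw [← h3]
    refine tsum_congr fun x => ?_
    rw [hnn]
    ring
  have hlaw : ∀ e, |e - (2 * d - E0)| ≤ 2 * R →
      |Po m e t - (Γ + t) / ((e - x0) ^ 2 + (Γ + t) ^ 2)| ≤ c ^ (-(1989 / 1000) : ℝ) := by
    intro e he
    obtain ⟨ur, ui, hLS, hPo⟩ := po_spec3 (fun x => 2 * (d : ℝ) - c * ξ x) ξ (2 * d) c
      (fun x => rfl) (fun x => f (x - a)) m hres hsupp e t ht0
    have h3 := hL a ha (2 * d - e) (by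
      rw [← hR2]
      refine le_trans (le_of_eq ?_) he
      rw [← abs_neg]
      congr 1
      ring) ur ui (by rw [← ht]; exact hLS)
    rw [← ht] at h3
    rw [hPo]
    have e4 : Lo E0 (c ^ 2 * Vv) t γ (2 * d - e) = (Γ + t) / ((e - x0) ^ 2 + (Γ + t) ^ 2) := by
      rw [Lo_eq, ← hΓ, hx0]
      congr 2
      ring
    rw [e4] at h3
    exact h3
  -- the number of scales
  obtain ⟨K0, hK0⟩ : ∃ K0 : ℕ, K0 = ⌈c ^ (-(1 / 10) : ℝ)⌉₊ := ⟨_, rfl⟩
  have hone : 1 ≤ c ^ (-(1 / 10) : ℝ) :=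
    Real.one_le_rpow_of_pos_of_le_one_of_nonpos hc hc1 (by norm_num)
  have hKl : c ^ (-(1 / 10) : ℝ) ≤ K0 := by rw [hK0]; exact Nat.le_ceil _
  have hKu : (K0 : ℝ) ≤ 2 * c ^ (-(1 / 10) : ℝ) := by
    have := Nat.ceil_lt_add_one (hpos (-(1 / 10))).le
    rw [← hK0] at this
    linarith
  have hK1r : (1 : ℝ) ≤ K0 := hone.trans hKl
  have hK1 : 1 ≤ K0 := by exact_mod_cast hK1r
  have hKt : 2 * K0 * t ≤ R := by
    have e1 : c ^ (-(1 / 10) : ℝ) * t = c ^ (3 / 200 : ℝ) * c ^ (399 / 200 : ℝ) := by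
      rw [ht, hadd, hadd]
      norm_num
    have e2 : 2 * (K0 : ℝ) * t ≤ 4 * (c ^ (-(1 / 10) : ℝ) * t) := by nlinarith
    rw [e1, ← hR2] at e2
    have e3 := mul_le_mul_of_nonneg_right n6 hR0.le
    linarith
  have hx : |x0 - (2 * d - E0)| ≤ R / 2 := by
    have e1 : x0 - (2 * d - E0) = c ^ 2 * Vv * γ.re := by rw [hx0]; ring
    have e2 : |γ.re| ≤ C := (Complex.abs_re_le_norm _).trans hγC
    rw [e1, abs_mul, abs_of_pos (by positivity : 0 < c ^ 2 * Vv)]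
    have e3 : c ^ 2 * Vv * |γ.re| ≤ c ^ 2 * B0 := by
      rw [hB0, ← mul_assoc]
      gcongr
    have e4 := mul_le_mul_of_nonneg_right n7 hR0.le
    have e5 : c ^ 2 * B0 = (4 * B0 * c ^ (1 / 200 : ℝ) * R) / 2 := by
      rw [hc2R]
      ring
    rw [e5] at e3
    linarith
  have hmain := golden_det m hmass x0 (2 * d - E0) Γ t R (c ^ (-(1989 / 1000) : ℝ)) K0 hK1 hΓ0
    ht0 hR0 (hpos _).le hx hKt hlaw α β hαβ
  refine hmain.trans ?_
  obtain ⟨q, hq⟩ : ∃ q, q = c ^ (1 / 300 : ℝ) := ⟨_, rfl⟩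
  have hq0 : 0 < q := by rw [hq]; exact hpos _
  rw [← hq]
  have hmulq : ∀ (A p p' : ℝ), p' = p - 1 / 300 → A * c ^ p' ≤ 1 → A * c ^ p ≤ q := by
    intro A p p' hp hA
    have e1 : c ^ p = c ^ p' * q := by
      rw [hq, hadd, hp]
      congr 1
      ring
    rw [e1, ← mul_assoc]
    exact mul_le_of_le_one_left hq0.le hA
  -- the five terms
  have T1 : 5 * (c ^ (-(1989 / 1000) : ℝ) * (2 * R)) ≤ q := by
    rw [hR2, hadd]
    exact hmulq 5 _ (1 / 375) (by norm_num) n1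
  have T3 : 5 * (1 / (K0 : ℝ)) ≤ q := by
    have e1 : 1 / (K0 : ℝ) ≤ c ^ (1 / 10 : ℝ) := by
      have e2 : c ^ (1 / 10 : ℝ) = 1 / c ^ (-(1 / 10) : ℝ) := by
        rw [Real.rpow_neg hc.le, div_inv_eq_mul, one_mul]
      rw [e2]
      exact one_div_le_one_div_of_le (hpos _) hKl
    exact (mul_le_mul_of_nonneg_left e1 (by norm_num)).trans
      (hmulq 5 _ (29 / 300) (by norm_num) n3)
  have hti : c ^ (211 / 100 : ℝ) = c ^ (11 / 100 : ℝ) * c ^ 2 := by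
    rw [hc2, hadd]
    norm_num
  have hc20 : 0 < c ^ 2 := by positivity
  have T4 : 5 * (2 * (t / Γ)) ≤ q := by
    have e1 : t / Γ ≤ 1 / a0 * c ^ (11 / 100 : ℝ) := by
      rw [div_le_iff₀ hΓ0, ht, hti]
      have e2 : 1 / a0 * c ^ (11 / 100 : ℝ) * (c ^ 2 * a0) = c ^ (11 / 100 : ℝ) * c ^ 2 := by
        field_simp
      rw [← e2]
      have := hpos (11 / 100)
      gcongr
    have e2 : 5 * (2 * (t / Γ)) ≤ 10 / a0 * c ^ (11 / 100 : ℝ) := by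
      have e3 : 10 / a0 * c ^ (11 / 100 : ℝ) = 10 * (1 / a0 * c ^ (11 / 100 : ℝ)) := by ring
      rw [e3]
      linarith
    exact e2.trans (hmulq (10 / a0) _ (8 / 75) (by norm_num) n4)
  have T5 : 5 * (4 * Γ / R) ≤ q := by
    have e1 : 4 * Γ / R ≤ 8 * B0 * c ^ (1 / 200 : ℝ) := by
      rw [div_le_iff₀ hR0]
      have e2 : 8 * B0 * c ^ (1 / 200 : ℝ) * R = 4 * (c ^ 2 * B0) := by
        rw [hc2R]
        ring
      rw [e2]
      linarith
    have e2 : 5 * (4 * Γ / R) ≤ 40 * B0 * c ^ (1 / 200 : ℝ) := by linarith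
    exact e2.trans (hmulq (40 * B0) _ (1 / 600) (by norm_num) n5)
  have T2 : 5 * (2 * (16 * (1 + Real.log (K0 + 1)) *
      (t * (Γ⁻¹ + c ^ (-(1989 / 1000) : ℝ))))) ≤ q := by
    have e1 : 1 + Real.log (K0 + 1) ≤ 3 * c ^ (-(1 / 10) : ℝ) := by
      have := Real.log_le_sub_one_of_pos (show (0 : ℝ) < K0 + 1 by linarith)
      linarith
    have e0 : 0 ≤ 1 + Real.log (K0 + 1) := by
      have := Real.log_nonneg (show (1 : ℝ) ≤ K0 + 1 by linarith)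
      linarith
    have e2 : t * (Γ⁻¹ + c ^ (-(1989 / 1000) : ℝ)) ≤ A0 * c ^ (11 / 100 : ℝ) := by
      have e3 : t * Γ⁻¹ ≤ 1 / a0 * c ^ (11 / 100 : ℝ) := by
        rw [← div_eq_mul_inv, div_le_iff₀ hΓ0, ht, hti]
        have e2 : 1 / a0 * c ^ (11 / 100 : ℝ) * (c ^ 2 * a0) = c ^ (11 / 100 : ℝ) * c ^ 2 := by
          field_simp
        rw [← e2]
        have := hpos (11 / 100)
        gcongr
      have e4 : t * c ^ (-(1989 / 1000) : ℝ) ≤ c ^ (11 / 100 : ℝ) := by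
        rw [ht, hadd]
        exact Real.rpow_le_rpow_of_exponent_ge hc hc1 (by norm_num)
      rw [hA0, mul_add, add_mul, one_mul]
      linarith
    have e5 : (1 + Real.log (K0 + 1)) * (t * (Γ⁻¹ + c ^ (-(1989 / 1000) : ℝ))) ≤
        3 * c ^ (-(1 / 10) : ℝ) * (A0 * c ^ (11 / 100 : ℝ)) := by
      refine mul_le_mul e1 e2 ?_ (by have := hpos (-(1 / 10)); positivity)
      have := hpos (-(1989 / 1000))
      have := inv_pos.2 hΓ0
      positivity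
    have e6 : 3 * c ^ (-(1 / 10) : ℝ) * (A0 * c ^ (11 / 100 : ℝ)) = 3 * A0 * c ^ (1 / 100 : ℝ) := by
      have : c ^ (-(1 / 10) : ℝ) * c ^ (11 / 100 : ℝ) = c ^ (1 / 100 : ℝ) := by
        rw [hadd]
        norm_num
      rw [← this]
      ring
    rw [e6] at e5
    have e7 : 5 * (2 * (16 * (1 + Real.log (K0 + 1)) *
        (t * (Γ⁻¹ + c ^ (-(1989 / 1000) : ℝ))))) ≤ 480 * A0 * c ^ (1 / 100 : ℝ) := by
      have e8 : 5 * (2 * (16 * (1 + Real.log (K0 + 1)) *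
        (t * (Γ⁻¹ + c ^ (-(1989 / 1000) : ℝ))))) = 160 * ((1 + Real.log (K0 + 1)) *
        (t * (Γ⁻¹ + c ^ (-(1989 / 1000) : ℝ)))) := by ring
      rw [e8]
      linarith
    exact e7.trans (hmulq (480 * A0) _ (1 / 150) (by norm_num) n2)
  have e9 : 2 * (16 * (1 + Real.log ((K0 : ℝ) + 1)) *
      (t * (Γ⁻¹ + c ^ (-(1989 / 1000) : ℝ))) + 1 / (2 * (K0 : ℝ))) =
      2 * (16 * (1 + Real.log (K0 + 1)) * (t * (Γ⁻¹ + c ^ (-(1989 / 1000) : ℝ)))) +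
        1 / (K0 : ℝ) := by
    have : (K0 : ℝ) ≠ 0 := by positivity
    field_simp
  rw [e9]
  linarith

end Pool.Agent.H189.GR
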